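import Pool.Agent.Helper52.CK.Defs
import Pool.Agent.Helper68.EKC.E1aU
set_option autoImplicit false
open Complex MeasureTheory Metric Set
open scoped Real ComplexConjugate

/-!
# Project CKC (critical multiplier, complex exponents): definitions and interfaces

`t = -κ conj u`, `‖u‖ = 1`, `α = (1 + u)/2`; `L = log N`. Everything as in `Helper52.CK.Defs`
(the real case is `u = 1`), with the density `exp (Re (t L)) = exp (-κ Re (conj u L))`.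
-/

namespace Pool.Agent.Helper97.CKC

open Pool.Agent.Helper39.Area Pool.Agent.Helper52.EK Pool.Agent.Helper52.CK Pool.Agent.Helper68.EKC

/-- density of the targets -/
noncomputable def FC (κ : ℝ) (u : ℂ) (L : ℂ → ℂ) (x θ : ℝ) : ℝ :=
  Real.exp (-(κ * (conj u * L (ep (-x) θ)).re))

/-- the functional -/
noncomputable def JC (κ : ℝ) (u : ℂ) (om w : ℝ → ℝ) (a b : ℝ) (L : ℂ → ℂ) : ℝ :=
  RR a b fun x θ => om x * w θ * FC κ u L x θ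

/-- the exponent -/
noncomputable def tt (κ : ℝ) (u : ℂ) : ℂ := -((κ : ℂ) * conj u)

noncomputable def ka (z z0 : ℂ) : ℂ := z * z0 / (z - z0) ^ 2
noncomputable def kb (z z0 : ℂ) : ℂ := conj z * z0 / (1 - z0 * conj z) ^ 2
noncomputable def kp (z z0 : ℂ) : ℂ := (z + z0) / (z - z0)
noncomputable def kq (z z0 : ℂ) : ℂ := (1 + z0 * conj z) / (1 - z0 * conj z)

/-- the first variation: `dJ = Re (B E(z0))` -/
noncomputable def EC (κ : ℝ) (u : ℂ) (om om' w w' : ℝ → ℝ) (a b : ℝ) (β L : ℂ → ℂ) (z0 : ℂ) : ℂ :=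
  ∫ x in a..b, ∫ θ in (-π)..π, ((FC κ u L x θ : ℝ) : ℂ) *
    (((om x * w θ : ℝ) : ℂ) * (tt κ u * (4 * z0 ^ 2 * kA β (ep (-x) θ) z0) - ((tt κ u).re : ℂ) +
        (-(tt κ u) * kp (ep (-x) θ) z0 + conj (tt κ u) * kq (ep (-x) θ) z0) / 2 -
        (tt κ u * ka (ep (-x) θ) z0 + conj (tt κ u) * kb (ep (-x) θ) z0) +
        2 * (ka (ep (-x) θ) z0 + kb (ep (-x) θ) z0)) +
      ((om' x * w θ : ℝ) : ℂ) * k3 (ep (-x) θ) z0 +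
      ((om x * w' θ : ℝ) : ℂ) * k5 (ep (-x) θ) z0)

/-- the coefficient of the kernel: `α² + u δ/(2κ)` -/
noncomputable def tau (κ dl : ℝ) (u : ℂ) : ℂ := ((1 + u) / 2) ^ 2 + u * ((dl / (2 * κ) : ℝ) : ℂ)

/-- the term of the multiplier for the target `z = ep (-x) θ` -/
noncomputable def MC (κ dl : ℝ) (u : ℂ) (W0 : ℂ → ℝ) (Mh : ℂ → ℂ) (β : ℂ → ℂ) (x θ : ℝ) : ℝ :=
  π⁻¹ * ∫ z0 : ℂ, W0 z0 * (Mh z0 * (kA β (ep (-x) θ) z0 - tau κ dl u * omp θ z0 ^ 2)).re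

/-! ### the interfaces -/

/-- NEAR: near-maximisers are nearly critical -/
def NearC (κ : ℝ) (u : ℂ) : Prop :=
  ∀ (om om' w w' : ℝ → ℝ) (a b : ℝ), Wt om om' w w' a b → (∃ x, 0 < om x) → (∃ θ, 0 < w θ) →
    ∀ η : ℝ, 0 < η → ∃ (β L : ℂ → ℂ) (R : ℝ), ExtR β R ∧ IsLog β L ∧
      (∀ γ L' : ℂ → ℂ, Ext γ → IsLog γ L' → (1 - η) * JC κ u om w a b L' ≤ JC κ u om w a b L) ∧
      ∀ z0 : ℂ, Real.exp (-1) ≤ ‖z0‖ → ‖z0‖ ≤ Real.exp (-2 * b) →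
        ‖EC κ u om om' w w' a b β L z0‖ ≤ η

/-- MINT: the integral of the multiplier term over the targets -/
def MIntC (κ dl : ℝ) (u : ℂ) : Prop :=
  ∀ Mb : ℝ, 0 ≤ Mb → ∃ C₁ : ℝ, 0 ≤ C₁ ∧ ∀ (om om' w w' : ℝ → ℝ) (a b : ℝ), Wt om om' w w' a b →
    (∀ θ ∈ Icc (-π) π, w θ ≠ 0 → |θ| ≤ 1 / 2) →
    ∀ (β L : ℂ → ℂ) (R η : ℝ), ExtR β R → IsLog β L → 0 ≤ η →
      (∀ z0 : ℂ, Real.exp (-1) ≤ ‖z0‖ → ‖z0‖ ≤ Real.exp (-2 * b) →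
        ‖EC κ u om om' w w' a b β L z0‖ ≤ η) →
      ∀ (W0 : ℂ → ℝ) (Mh : ℂ → ℂ), Cutf b W0 → ContinuousOn Mh {z | 0 < ‖z‖ ∧ ‖z‖ < 1} →
        (∀ z, ‖Mh z‖ ≤ Mb) →
        RR a b (fun x θ => om x * w θ * FC κ u L x θ * MC κ dl u W0 Mh β x θ) ≤
          C₁ * JC κ u om w a b L +
          (Mb / (2 * κ)) * (-Real.log b + C₁) *
            RR a b (fun x θ => |(κ - 2 + dl) * om x - x * om' x| * w θ * FC κ u L x θ) +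
          C₁ * RR a b (fun x θ => om x * |w' θ| * FC κ u L x θ) + C₁ * η

/-- ENT: entropy inequality on one circle -/
def EntC : Prop :=
  ∃ C : ℝ, ∀ (κ : ℝ) (u : ℂ) (β L : ℂ → ℂ) (R : ℝ) (v : ℂ → ℂ) (w : ℝ → ℝ) (x : ℝ),
    ExtR β R → IsLog β L → ContinuousOn v {z | 0 < ‖z‖ ∧ ‖z‖ < 1} → Continuous w →
    (∀ θ, 0 ≤ w θ) → (∀ θ, w θ ≤ 1) → Function.Periodic w (2 * π) → 0 < x → x < 1 →
    ∀ m : ℝ, m = (2 * π)⁻¹ * ∫ θ in (-π)..π, w θ * FC κ u L x θ → 0 < m →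
    m * Real.log m ≤ m * (Real.log (1 - Real.exp (-2 * x)) + C) +
      (2 * π)⁻¹ * ∫ θ in (-π)..π, w θ * FC κ u L x θ *
        (Kf v (Complex.exp (θ * I)) (-1) (-x) - κ * (conj u * L (ep (-x) θ)).re)

/-- PT: the inequality for one target -/
def PTC (κ dl : ℝ) (u : ℂ) (G : ℂ → ℂ) (Mh : (ℂ → ℂ) → ℂ → ℂ) : Prop :=
  ∃ C₀ : ℝ, 0 ≤ C₀ ∧ ∀ ε : ℝ, 0 < ε → ∃ s C : ℝ, 0 < s ∧ s ≤ 1 / 2 ∧ 0 ≤ C ∧ ∀ n : ℝ, 2 ≤ n →
    ∃ W0 : ℂ → ℝ, Cutf (Real.exp (-n)) W0 ∧ ∀ (β L : ℂ → ℂ) (R : ℝ), ExtR β R → IsLog β L →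
      ∀ x θ : ℝ, 0 < x → x ≤ Real.exp (-n) → |θ| ≤ s →
        Kf (wf G β) (Complex.exp (θ * I)) (-1) (-x) ≤
          κ * (-Real.log (1 - Real.exp (-2 * x)) + (conj u * L (ep (-x) θ)).re) +
          MC κ dl u W0 (Mh β) β x θ + C + (dl + ε) * (-Real.log x) + C₀ * (-Real.log x - n)

end Pool.Agent.Helper97.CKC
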