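import Pool.Agent.Helper84.CK.KOneWd
import Pool.Agent.Helper97.CKC.Defs
set_option autoImplicit false
open Complex MeasureTheory Metric Set
open scoped Real ComplexConjugate

/-!
# Project CKC: the strip, for a direction `u` (whole strip, no centre line)

`X = α Ξ`, `α = (1 + u)/2`; `T ≤ k Re(ū(α - X)) + lam |X - α|² + dc + N + Re(M e₀ (X² - q))`,
`k + lam < 2 κ`, `q = tau κ dl u`.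
-/

namespace Pool.Agent.Helper97.CKC

open Pool.Agent.Helper39.Area Pool.Agent.Helper52.EK Pool.Agent.Helper69.EK3
open Pool.Agent.Helper69.EK7 Pool.Agent.Helper84.CK

/-- the bounds of Koebe and Bieberbach with an integrable error, on the whole strip -/
def DiscF (X : ℂ → ℂ) (x₁ x₂ : ℝ) : Prop :=
  ∃ δ : ℝ → ℝ, Continuous δ ∧ (∀ ξ, 0 ≤ δ ξ) ∧ (∀ ξ ∈ Icc x₁ x₂, δ ξ ≤ 8) ∧
    (∫ ξ in x₁..x₂, δ ξ ≤ 8) ∧ ∀ ξ ∈ Icc x₁ x₂, ∀ η ∈ Icc (0:ℝ) π,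
      Real.sin η * ‖X (pt ξ η)‖ ≤ 1 + δ ξ ∧
      ‖dA 1 (X (pt ξ η)) (deriv X (pt ξ η)) (Real.sin η) (Real.cos η)‖ ≤ 4 * (1 + δ ξ) ∧
      ‖dA (-1) (X (pt ξ η)) (deriv X (pt ξ η)) (Real.sin η) (Real.cos η)‖ ≤ 4 * (1 + δ ξ)

/-- the term of the multiplier in the strip, complex constant `q` -/
noncomputable def MtU (M : ℂ → ℂ) (q : ℂ) (X : ℂ → ℂ) (ξ η : ℝ) : ℝ :=
  (M (mX (X (pt ξ η)) (deriv X (pt ξ η)) (Real.sin η) (Real.cos η)) *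
    e0 (Real.sin η) (Real.cos η) * (X (pt ξ η) ^ 2 - q)).re

/-- `N` is null against weights, on the whole strip -/
structure IsNullU (P : (ℂ → ℂ) → ℝ → ℝ → Prop) (N : (ℂ → ℂ) → ℝ → ℝ → ℝ) : Prop where
  cN : ∀ (X : ℂ → ℂ) (x₁ x₂ : ℝ), NiceX X x₁ x₂ → CH x₁ x₂ π (N X)
  le : ∃ C : ℝ, ∀ (X : ℂ → ℂ) (x₁ x₂ V : ℝ) (Ω Ω₁ Ω₂ : ℝ → ℝ → ℝ), x₁ ≤ x₂ → 0 ≤ V →
    WtF x₁ x₂ V Ω Ω₁ Ω₂ → NiceX X x₁ x₂ → P X x₁ x₂ →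
    |II x₁ x₂ (fun ξ η => Ω ξ η * N X ξ η)| ≤
      C * (V * (x₂ - x₁ + II x₁ x₂ (fun ξ η => ‖X (pt ξ η) - 1‖ ^ 2)))

/-- functionals `f X`, analytic on the whole strip -/
def AnU (f : (ℂ → ℂ) → ℂ → ℂ) : Prop :=
  ∀ (X : ℂ → ℂ) (x₁ x₂ : ℝ), NiceX X x₁ x₂ → AnalyticOnNhd ℂ (f X) (Rect x₁ x₂)

/-- the integrated inequality with a weight, direction `u` -/
def StripIneqU (k lam dc : ℝ) (u : ℂ) (T Mt : (ℂ → ℂ) → ℝ → ℝ → ℝ)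
    (adm : (ℂ → ℂ) → ℝ → ℝ → Prop) : Prop :=
  ∃ C : ℝ, 0 ≤ C ∧ ∀ (X : ℂ → ℂ) (x₁ x₂ V : ℝ) (Ω Ω₁ Ω₂ : ℝ → ℝ → ℝ), x₁ ≤ x₂ → 0 ≤ V →
    WtF x₁ x₂ V Ω Ω₁ Ω₂ → NiceX X x₁ x₂ → adm X x₁ x₂ →
    II x₁ x₂ (fun ξ η => Ω ξ η * T X ξ η) ≤
    k * (π * ∫ ξ in x₁..x₂, Ω ξ (π / 2) * (conj u * ((1 + u) / 2 - X (pt ξ (π / 2)))).re) +
      lam * II x₁ x₂ (fun ξ η => ‖X (pt ξ η) - (1 + u) / 2‖ ^ 2) +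
      dc * (π * (x₂ - x₁)) +
      II x₁ x₂ (fun ξ η => Ω ξ η * Mt X ξ η) +
      C * (1 + V * (x₂ - x₁ + II x₁ x₂ (fun ξ η => ‖X (pt ξ η) - 1‖ ^ 2)))

end Pool.Agent.Helper97.CKC
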